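import Pool.Agent.H58.JU.Targets

/-! Row SPT of jun_modules: the Schur product theorem. -/

namespace Pool.Agent.H40.JU

open Pool.Agent.H58.JU

theorem psd_of {N : ℕ} (A : Fin N → Fin N → ℝ) (hA : ∀ i j, A i j = A j i)
    (h : ∀ t : Fin N → ℝ, 0 ≤ ∑ i, ∑ j, t i * t j * A i j) : (Matrix.of A).PosSemidef := by
  refine Matrix.PosSemidef.of_dotProduct_mulVec_nonneg ?_ ?_
  · ext i j
    simp [Matrix.conjTranspose_apply, hA i j]
  · intro x
    have := h x
    simp only [dotProduct, Matrix.mulVec, Matrix.of_apply, Pi.star_apply, star_trivial,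
      Finset.mul_sum]
    refine this.trans (le_of_eq ?_)
    refine Finset.sum_congr rfl fun i _ => Finset.sum_congr rfl fun j _ => ?_
    ring

theorem pf_SPT : T_SPT := by
  intro N A B hA hB h1 h2 t
  have hP := (psd_of A hA h1).hadamard (psd_of B hB h2)
  have h := hP.dotProduct_mulVec_nonneg t
  simp only [dotProduct, Matrix.mulVec, Matrix.of_apply, Pi.star_apply, star_trivial,
    Finset.mul_sum, Matrix.hadamard_apply] at h
  refine h.trans (le_of_eq ?_)
  refine Finset.sum_congr rfl fun i _ => Finset.sum_congr rfl fun j _ => ?_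
  ring

end Pool.Agent.H40.JU
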